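import Mathlib
import Pool.Agent.V8H39.RM.Layer

/-!
# Machines which read the configuration graph few times need much memory

The natural XNLP-complete problem is reachability in the layered configuration graph of a
nondeterministic machine with `n ^ k` memory states and `n` steps. Here the graph is given
explicitly. Deterministic machines, even with a stack of unlimited height, with nondeterminism for
the unreachability, with one-sided randomness and with a sparse oracle, need about `n ^ k` bits of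
memory if they read the edges fewer than `(k - c) log n / 366` times on average.
-/

set_option autoImplicit false

open Finset

namespace Pool.Agent.Results.MP_838544_lc.FewReads

open Pool.Agent.V8H39.SO Pool.Agent.V8H39.RM

theorem sum_frL {L N : ℕ} [NeZero N] {l₁ l₂ : Fin L} (a e : Fin N)
    (κ : Fin L × Fin N × Fin N → ℕ) :
    ∑ v with frL l₁.val l₂.val a e v ≠ none, κ v ≤
      ∑ w, κ (l₁, a, w) + ∑ v, κ (l₂, v, e) := by
  classical
  have h1 : (univ.filter (fun v : Fin L × Fin N × Fin N => frL l₁.val l₂.val a e v ≠ none)) ⊆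
      univ.image (fun w : Fin N => ((l₁, a, w) : Fin L × Fin N × Fin N)) ∪
      univ.image (fun v : Fin N => ((l₂, v, e) : Fin L × Fin N × Fin N)) := by
    rintro ⟨l, v, w⟩ hv
    have h2 := (mem_filter.1 hv).2
    unfold frL at h2
    rw [mem_union, mem_image, mem_image]
    by_cases h3 : l.val = l₁.val ∧ v = a
    · left
      exact ⟨w, mem_univ _, by rw [h3.2, Fin.ext h3.1]⟩
    · by_cases h4 : l.val = l₂.val ∧ w = e
      · right
        exact ⟨v, mem_univ _, by rw [h4.2, Fin.ext h4.1]⟩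
      · simp [h3, h4] at h2
  have h2 : ∑ w, κ (l₁, a, w) =
      ∑ v ∈ univ.image (fun w : Fin N => ((l₁, a, w) : Fin L × Fin N × Fin N)), κ v := by
    rw [sum_image]
    intro v _ w _ h
    simpa using h
  have h3 : ∑ v, κ (l₂, v, e) =
      ∑ v ∈ univ.image (fun v : Fin N => ((l₂, v, e) : Fin L × Fin N × Fin N)), κ v := by
    rw [sum_image]
    intro v _ w _ h
    simpa using h
  rw [h2, h3]
  refine (sum_le_sum_of_subset h1).trans ?_
  rw [← sum_union_inter]
  exact Nat.le_add_right _ _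

theorem exists_row {N : ℕ} [NeZero N] (f : Fin N → ℕ) : ∃ a, N * f a ≤ ∑ a, f a := by
  have h : ∑ a : Fin N, N * f a ≤ ∑ _a : Fin N, ∑ a, f a := by
    rw [← mul_sum, sum_const, card_univ, Fintype.card_fin, smul_eq_mul]
  obtain ⟨a, -, ha⟩ := exists_le_of_sum_le (⟨0, mem_univ _⟩ : (univ : Finset (Fin N)).Nonempty) h
  exact ⟨a, ha⟩

/-- two layers with few reads -/
theorem exists_layers {L N r : ℕ} (hL : 5 ≤ L) (E : Fin L → ℕ)
    (hE : ∑ l, E l ≤ r * (L * N ^ 2)) :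
    ∃ l₁ l₂ : Fin L, 1 ≤ l₁.val ∧ l₁.val + 2 ≤ l₂.val ∧ l₂.val + 1 < L ∧
      E l₁ + E l₂ ≤ 6 * r * N ^ 2 := by
  classical
  by_contra hcon
  push Not at hcon
  obtain ⟨m, hm⟩ : ∃ m, m = (L - 3) / 2 := ⟨_, rfl⟩
  obtain ⟨f₁, hf₁⟩ : ∃ f₁ : Fin m → Fin L, ∀ i, (f₁ i).val = i.val + 1 :=
    ⟨fun i => ⟨i.val + 1, by have := i.isLt; omega⟩, fun _ => rfl⟩
  obtain ⟨f₂, hf₂⟩ : ∃ f₂ : Fin m → Fin L, ∀ i, (f₂ i).val = L - 2 - i.val :=
    ⟨fun i => ⟨L - 2 - i.val, by have := i.isLt; omega⟩, fun _ => rfl⟩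
  have h1 : ∀ i : Fin m, 6 * r * N ^ 2 + 1 ≤ E (f₁ i) + E (f₂ i) := by
    intro i
    have := i.isLt
    exact hcon _ _ (by rw [hf₁]; omega) (by rw [hf₁, hf₂]; omega) (by rw [hf₂]; omega)
  have h2 : m * (6 * r * N ^ 2 + 1) ≤ ∑ i, (E (f₁ i) + E (f₂ i)) := by
    calc m * (6 * r * N ^ 2 + 1) = ∑ _i : Fin m, (6 * r * N ^ 2 + 1) := by
          rw [sum_const, card_univ, Fintype.card_fin, smul_eq_mul]
      _ ≤ _ := sum_le_sum fun i _ => h1 i
  have i1 : Function.Injective f₁ := by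
    intro i j h
    have := congrArg Fin.val h
    rw [hf₁, hf₁] at this
    exact Fin.ext (by omega)
  have i2 : Function.Injective f₂ := by
    intro i j h
    have := congrArg Fin.val h
    rw [hf₂, hf₂] at this
    have h3 := i.isLt
    have h4 := j.isLt
    exact Fin.ext (by omega)
  have h3 : ∑ i, (E (f₁ i) + E (f₂ i)) ≤ ∑ l, E l := by
    rw [sum_add_distrib]
    have e1 : ∑ i, E (f₁ i) = ∑ l ∈ univ.image f₁, E l := by
      rw [sum_image]; exact i1.injOn
    have e2 : ∑ i, E (f₂ i) = ∑ l ∈ univ.image f₂, E l := by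
      rw [sum_image]; exact i2.injOn
    rw [e1, e2, ← sum_union]
    · exact sum_le_sum_of_subset (subset_univ _)
    · rw [disjoint_left]
      intro l hl hl'
      obtain ⟨i, -, rfl⟩ := mem_image.1 hl
      obtain ⟨j, -, hj⟩ := mem_image.1 hl'
      have := congrArg Fin.val hj
      rw [hf₁, hf₂] at this
      have h4 := i.isLt
      have h5 := j.isLt
      omega
  have h4 : r * (L * N ^ 2) ≤ m * (6 * r * N ^ 2) := by
    have h5 : L ≤ 6 * m := by omega
    calc r * (L * N ^ 2) ≤ r * ((6 * m) * N ^ 2) := by gcongr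
      _ = _ := by ring
  have h5 : m * (6 * r * N ^ 2 + 1) = m * (6 * r * N ^ 2) + m := by ring
  omega

theorem total (r L N : ℕ) [NeZero N] (hL : 5 ≤ L) (O : Set (List Bool)) (m : ℕ)
    (P : RMach (Fin L × Fin N × Fin N)) (hP : ∀ x, P.Accepts O m x ↔ ¬ Reach x)
    (κ : Fin L × Fin N × Fin N → ℕ) (hκ : ∀ A, P.Path O m A → ∀ v, A.count v ≤ κ v)
    (hs : ∑ v, κ v ≤ r * (L * N ^ 2)) :
    N ≤ 2 ^ (60 * (6 * r + 1) + 4) *
      (Nat.log 2 (Fintype.card P.State * ((upTo O m).ncard * m + 2)) + 1) := by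
  classical
  have hNpos : 0 < N := Nat.pos_of_ne_zero (NeZero.ne N)
  obtain ⟨l₁, l₂, h1, h2, h3, h4⟩ := exists_layers (r := r) (N := N) hL
    (fun l => ∑ v, ∑ w, κ (l, v, w)) (by
      refine le_trans (le_of_eq ?_) hs
      rw [Fintype.sum_prod_type]
      refine sum_congr rfl fun l _ => ?_
      rw [Fintype.sum_prod_type])
  obtain ⟨a, ha⟩ := exists_row (fun a => ∑ w, κ (l₁, a, w))
  obtain ⟨e, he⟩ := exists_row (fun e => ∑ v, κ (l₂, v, e))
  have h5 : ∑ w, κ (l₁, a, w) + ∑ v, κ (l₂, v, e) ≤ (6 * r) * N := by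
    rw [sum_comm (f := fun e v => κ (l₂, v, e))] at he
    have h6 : N * (∑ w, κ (l₁, a, w) + ∑ v, κ (l₂, v, e)) ≤ N * ((6 * r) * N) := by
      calc N * (∑ w, κ (l₁, a, w) + ∑ v, κ (l₂, v, e)) =
          N * ∑ w, κ (l₁, a, w) + N * ∑ v, κ (l₂, v, e) := by ring
        _ ≤ ∑ v, ∑ w, κ (l₁, v, w) + ∑ v, ∑ w, κ (l₂, v, w) := Nat.add_le_add ha he
        _ ≤ 6 * r * N ^ 2 := h4
        _ = _ := by ring
    exact Nat.le_of_mul_le_mul_left h6 hNpos
  obtain ⟨-, h6⟩ := lay_mach (6 * r) L N l₁.val l₂.val h2 l₂.isLt a e (fun h => by omega)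
    (fun h => by omega) Unit O m (fun _ => P) (fun _ x hx => (hP x).1 hx)
    (fun x hx => by
      have h7 : Nat.card {r : Unit // P.Accepts O m x} = 1 := by
        rw [Nat.card_eq_one_iff_unique]
        exact ⟨⟨fun a b => Subtype.ext rfl⟩, ⟨⟨(), (hP x).2 hx⟩⟩⟩
      rw [h7]
      have h8 : Nat.card Unit = 1 := Nat.card_unique
      rw [h8]
      have := Nat.one_le_two_pow (n := N / 2 ^ (60 * (6 * r + 1)))
      omega)
    (fun _ => ⟨κ, fun A hA v _ => by convert hκ A hA v, (sum_frL a e κ).trans h5⟩)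
  exact h6

theorem arith (p t B x : ℕ) (h2 : 2 ^ ((p + 1) * t) ≤ x) (h3 : x ≤ 2 ^ (p * t) * B) :
    x ≤ B ^ (p + 1) := by
  have hx : 0 < x := lt_of_lt_of_le (pow_pos (by norm_num) _) h2
  have h4 : x ^ p * x ≤ x ^ p * B ^ (p + 1) := by
    calc x ^ p * x = x ^ (p + 1) := (pow_succ x p).symm
      _ ≤ (2 ^ (p * t) * B) ^ (p + 1) := Nat.pow_le_pow_left h3 _
      _ = (2 ^ ((p + 1) * t)) ^ p * B ^ (p + 1) := by
          rw [mul_pow, ← pow_mul, ← pow_mul]
          congr 2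
          ring
      _ ≤ x ^ p * B ^ (p + 1) := Nat.mul_le_mul_right _ (Nat.pow_le_pow_left h2 _)
  exact Nat.le_of_mul_le_mul_left h4 (pow_pos hx p)

/-- (1) One-sided random families of machines, with few reads of the edges from a vertex `a` of the
layer `l₁` and of the edges to a vertex `e` of the layer `l₂ + 1`. (2) Few reads of all the edges,
on average. (3) `n` layers of edges between `n ^ k` vertices. -/
theorem result :
    (∀ (r L N : ℕ) [NeZero N] (l₁ l₂ : Fin L) (a e : Fin N), l₁.val + 2 ≤ l₂.val →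
      (l₁.val = 0 → a = 0) → (l₂.val + 1 = L → e = 0) →
      ∀ (Ω : Type) [Fintype Ω] [Nonempty Ω] (O : Set (List Bool)) (m : ℕ)
        (P : Ω → RMach (Fin L × Fin N × Fin N)),
      (∀ ω x, (P ω).Accepts O m x → ¬ Reach x) →
      (∀ x, ¬ Reach x →
        Nat.card Ω ≤ 2 ^ (N / 2 ^ (60 * (r + 1))) * Nat.card {ω // (P ω).Accepts O m x}) →
      (∀ ω, ∃ κ κ' : Fin N → ℕ, ∑ w, κ w + ∑ v, κ' v ≤ r * N ∧
        ∀ A, (P ω).Path O m A → ∀ v, A.count (l₁, a, v) ≤ κ v ∧ A.count (l₂, v, e) ≤ κ' v) →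
      ∃ ω, N ≤ 2 ^ (60 * (r + 1) + 4) *
        (Nat.log 2 (Fintype.card (P ω).State * ((upTo O m).ncard * m + 2)) + 1)) ∧
    (∀ (r L N : ℕ) [NeZero N], 5 ≤ L → ∀ (O : Set (List Bool)) (m : ℕ)
      (P : RMach (Fin L × Fin N × Fin N)), (∀ x, P.Accepts O m x ↔ ¬ Reach x) →
      ∀ κ : Fin L × Fin N × Fin N → ℕ, (∀ A, P.Path O m A → ∀ v, A.count v ≤ κ v) →
      ∑ v, κ v ≤ r * (L * N ^ 2) →
      N ≤ 2 ^ (60 * (6 * r + 1) + 4) *
        (Nat.log 2 (Fintype.card P.State * ((upTo O m).ncard * m + 2)) + 1)) ∧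
    (∀ k c F : ℕ, c < k → ∃ n₀ : ℕ, ∀ n, n₀ ≤ n → ∀ (N : ℕ) [NeZero N], N = n ^ k →
      ∀ r : ℕ, 61 * (6 * r + 1) ≤ (k - c) * Nat.log 2 n →
      ∀ (O : Set (List Bool)) (m : ℕ) (P : RMach (Fin n × Fin N × Fin N)),
      (∀ x, P.Accepts O m x ↔ ¬ Reach x) →
      ∀ κ : Fin n × Fin N × Fin N → ℕ, (∀ A, P.Path O m A → ∀ v, A.count v ≤ κ v) →
      ∑ v, κ v ≤ r * (n * N ^ 2) →
      F * n ^ c < Nat.log 2 (Fintype.card P.State * ((upTo O m).ncard * m + 2))) := by
  classical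
  refine ⟨?_, fun r L N _ => total r L N, ?_⟩
  · intro r L N _ l₁ l₂ a e h12 ha he Ω _ _ O m P hU hc hd
    refine lay_mach r L N l₁.val l₂.val h12 l₂.isLt a e ha he Ω O m P hU hc fun ω => ?_
    obtain ⟨κ, κ', h1, h2⟩ := hd ω
    have hne : l₁ ≠ l₂ := by
      intro h
      rw [h] at h12
      omega
    refine ⟨fun v => if v.1 = l₁ ∧ v.2.1 = a then κ v.2.2 else κ' v.2.1, ?_, ?_⟩
    · rintro A hA ⟨l, v, w⟩ hv
      unfold frL at hv
      by_cases h3 : l = l₁ ∧ v = a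
      · obtain ⟨rfl, rfl⟩ := h3
        simp only [and_self, if_true]
        convert (h2 A hA w).1
      · have h3' : ¬ (l.val = l₁.val ∧ v = a) := fun h => h3 ⟨Fin.ext h.1, h.2⟩
        by_cases h4 : l.val = l₂.val ∧ w = e
        · have h5 : l = l₂ := Fin.ext h4.1
          obtain ⟨-, rfl⟩ := h4
          subst h5
          simp only [h3, if_false]
          convert (h2 A hA v).2
        · simp [h3', h4] at hv
    · refine (sum_frL a e _).trans (le_trans (le_of_eq ?_) h1)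
      congr 1
      · refine sum_congr rfl fun w _ => ?_
        simp
      · refine sum_congr rfl fun v _ => ?_
        simp [hne.symm]
  · intro k c F hck
    obtain ⟨d, rfl⟩ : ∃ d, k = c + d := ⟨k - c, by omega⟩
    obtain ⟨p, hp⟩ : ∃ p, p = 60 := ⟨_, rfl⟩
    obtain ⟨K, hK⟩ : ∃ K, K = (16 * (F + 1)) ^ (p + 1) := ⟨_, rfl⟩
    refine ⟨K + 5, fun n hn N _ hN r hr O m P hP κ hκ hs => ?_⟩
    by_contra hcon
    push Not at hcon
    have h1 := total r n N (by omega) O m P hP κ hκ hs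
    obtain ⟨t, ht⟩ : ∃ t, t = 6 * r + 1 := ⟨_, rfl⟩
    rw [← ht] at h1 hr
    have hr' : (p + 1) * t ≤ d * Nat.log 2 n := by
      rw [hp]
      rwa [Nat.add_sub_cancel_left] at hr
    rw [← hp] at h1
    clear hr
    have hn1 : 1 ≤ n := by omega
    have h4 : 1 ≤ n ^ c := Nat.one_le_pow _ _ hn1
    have h2 : 2 ^ ((p + 1) * t) ≤ n ^ d := by
      calc 2 ^ ((p + 1) * t) ≤ 2 ^ (d * Nat.log 2 n) := Nat.pow_le_pow_right (by norm_num) hr'
        _ = (2 ^ Nat.log 2 n) ^ d := by rw [mul_comm, pow_mul]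
        _ ≤ n ^ d := Nat.pow_le_pow_left (Nat.pow_log_le_self 2 (by omega)) d
    have h3 : n ^ c * n ^ d ≤ n ^ c * (2 ^ (p * t) * (16 * (F + 1))) := by
      rw [← pow_add, ← hN]
      refine h1.trans ?_
      rw [pow_add, mul_assoc]
      have h5 : 2 ^ 4 * (Nat.log 2 (Fintype.card P.State * ((upTo O m).ncard * m + 2)) + 1) ≤
          16 * (F + 1) * n ^ c := by
        calc 2 ^ 4 * (Nat.log 2 (Fintype.card P.State * ((upTo O m).ncard * m + 2)) + 1)
            ≤ 2 ^ 4 * (F * n ^ c + n ^ c) := Nat.mul_le_mul_left _ (Nat.add_le_add hcon h4)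
          _ = _ := by ring
      calc _ ≤ 2 ^ (p * t) * (16 * (F + 1) * n ^ c) := Nat.mul_le_mul_left _ h5
        _ = _ := by ring
    have h5 : n ^ d ≤ K := by
      rw [hK]
      exact arith p t _ _ h2 (Nat.le_of_mul_le_mul_left h3 h4)
    have h6 : n ≤ n ^ d := Nat.le_self_pow (by omega) n
    omega

end Pool.Agent.Results.MP_838544_lc.FewReads
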