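import Pool.Agent.V8H11.TS.Both

/-!
A time-space tradeoff for the labelling problem of the `k × n` grid in the min-plus, max-plus,
nonnegative and read-once Boolean models.
-/

namespace Pool.Agent.Results.MP_838544_lc.MinPlusTimeSpace

open Pool.Agent.V8H11.TS Filter

theorem result :
    -- (1) explicit tradeoff between registers and rounds
    (∀ (M : Model) (k L n m D B T : ℕ) (Reg : Type) [Fintype Reg],
      1 ≤ k → 1 ≤ n → 2 ≤ m → m ^ 2 * Fintype.card Reg ≤ n ^ k →
      (B + 2) * k * 3 ^ (4 * D + 1) + 1 ≤ L → Solves k L n Reg B T M → m ^ D < T) ∧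
    -- (2) asymptotic form for the `k × n` grid with `n` labels
    (∀ (k : ℕ) (γ : ℝ), 1 ≤ k → γ < k → ∀ᶠ n : ℕ in atTop,
      ∀ (M : Model) (Reg : Type) [Fintype Reg] (B T : ℕ),
        (Fintype.card Reg : ℝ) ≤ (n : ℝ) ^ γ → B ^ 2 ≤ n → Solves k n n Reg B T M →
        (n : ℝ) ^ ((k - γ) * Real.log n / 40) < T) ∧
    -- (3) the form of the question
    (∀ (f : ℕ → ℕ) (c k : ℕ), c < k → ∀ᶠ n : ℕ in atTop,
      ∀ (M : Model) (Reg : Type) [Fintype Reg] (B T : ℕ),
        Fintype.card Reg ≤ f k * n ^ c → B ^ 2 ≤ n → Solves k n n Reg B T M → n ^ (f k) < T) ∧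
    -- (4) upper bound: divide and conquer with `(D + 2) * G` registers
    (∀ (M : Model) (k L n D q G : ℕ), 1 ≤ k → 1 ≤ L → 1 ≤ G → 1 ≤ q → n ^ k ≤ q * G →
      L ≤ 2 ^ D + 1 → ∃ T, T ≤ 2 * q ^ 2 * (3 * q) ^ D + 1 ∧
        Solves k L n (Fin (D + 2) × Fin G) (2 * k) T M) := by
  refine ⟨?_, ?_, ?_, ?_⟩
  · intro M k L n m D B T Reg _ hk hn hm hR hL h
    exact solves_lower_bound M k L n m D B T hk hn hm Reg hR hL h
  · intro k γ hk hγ
    exact lower_bound_asymptotic k hk γ hγ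
  · intro f c k hck
    exact lower_bound_question f c k hck
  · intro M k L n D q G hk hL hG hq hqG hD
    exact solves_upper_bound M k L n D q G hk hL hG hq hqG hD

end Pool.Agent.Results.MP_838544_lc.MinPlusTimeSpace
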