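import Pool.Agent.V8H46.BM.Final

/-!
# MP_838544_lc: a time-space trade-off for monotone machines that decide reachability

A monotone machine (`Pool.Agent.V8H46.BM.Machine`) has a preordered set `Z` of memory states; in
one step it reads the whole set of edges between two consecutive layers of a layered graph (which
set it reads may depend on its state) and goes to a new state; the transition function is
arbitrary, except that it is monotone in the old state and in the graph. It decides reachability
of `t` from `s` if, after `T` steps, it is in an upward closed set of accepting states exactly for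
the graphs with a path. The configuration graph of a nondeterministic machine with `n ^ k` memory
states and `n` steps is such a graph, with `L = n` and `N = n ^ k`.

The first part is the trade-off: with at most `2 ^ S` memory states and at most `2 ^ D` steps,
`N ^ (q + 1) ≤ 4 ^ D * (256 * (D * S + q + 2)) ^ (q + 1)`, where `2 ^ q ≤ L`. The second part is the
consequence for `L = n`, `N = n ^ k`: `f k * n ^ c` bits of memory and `n ^ f k` steps are never
enough when `k ≥ c + 1` and `n` is large. The third part is the special case of register programs
with conjunctions and disjunctions.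

The proof is an asymmetric form of the communication game of Karchmer and Wigderson: in the middle
of the time interval the player with the cut announces the memory state (`S` bits), and the player
with the path answers with one bit.
-/

set_option autoImplicit false

namespace Pool.Agent.Results.MP_838544_lc.MonotoneMachines

open Pool.Agent.V8H46.BM

theorem result :
    (∀ (Z : Type) [Preorder Z] [Fintype Z] (N L S T D q : ℕ) (s t : Fin N) (M : Machine Z L N)
      (acc : Z → Prop), Fintype.card Z ≤ 2 ^ S → M.Decides acc T s t → T ≤ 2 ^ D → 1 ≤ q →
      2 ^ q ≤ L → N ^ (q + 1) ≤ 4 ^ D * (256 * (D * S + q + 2)) ^ (q + 1)) ∧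
    (∀ (f : ℕ → ℕ) (c k : ℕ), c + 1 ≤ k → ∃ n₀ : ℕ, ∀ n ≥ n₀, ∀ S ≤ f k * n ^ c,
      ∀ T ≤ n ^ f k, ∀ (Z : Type) [Preorder Z] [Fintype Z], Fintype.card Z ≤ 2 ^ S →
        ∀ (s t : Fin (n ^ k)) (M : Machine Z n (n ^ k)) (acc : Z → Prop),
          ¬ M.Decides acc T s t) ∧
    (∀ (f : ℕ → ℕ) (c k : ℕ), c + 1 ≤ k → ∃ n₀ : ℕ, ∀ n ≥ n₀, ∀ S ≤ f k * n ^ c,
      ∀ T ≤ n ^ f k, ∀ (s t : Fin (n ^ k)) (p : ℕ → BOp S n (n ^ k)) (out : Fin S),
        ¬ ∀ x, (bregs p x T out = true ↔ Reach s t x)) :=
  ⟨fun _ _ _ _ _ _ _ _ _ _ _ M _ hS hdec hT hq hL => tradeoff M hS hdec hT hq hL,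
    corollary, corollary_programs⟩

end Pool.Agent.Results.MP_838544_lc.MonotoneMachines
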