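import Pool.Agent.V8H46.RP.Final

/-!
# MP_838544_lc: a time-space trade-off for monotone programs for the iterated product of matrices

A program has `S` registers and runs in `T` steps; each step loads an input, loads a natural
number, adds two registers or multiplies two registers of a commutative semiring
(`Pool.Agent.V8H46.RP.Op`, `regs`). It computes an entry of the product of `L` matrices of
dimension `N` (`Computes`), over the natural numbers or over the min-plus semiring on the natural
numbers with infinity (`MinPlus`): that is, it counts, or it finds the cheapest of, the paths of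
length `L` between two vertices of a layered graph with layers of size `N` (for `N = n ^ k` and
`L = n` these are the computations with `n` steps of a nondeterministic machine with `n ^ k`
memory states). Tabulation uses about `2 N` registers and polynomially many steps, and the
divide-and-conquer of Savitch about `log L` registers and `N ^ (log L)` steps. The theorem is that
there is nothing between them: `T ≤ 2 ^ D` implies `N ^ r ≤ 2 ^ D * (2 * D * S * L) ^ r`, where
`2 ^ r ≤ L`. In particular, for all `f`, `c` and `k ≥ c + 2` and all large `n` there is no such
program with at most `n ^ f k` steps and at most `f k * n ^ c` registers for `n` matrices of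
dimension `n ^ k`.
-/

set_option autoImplicit false

namespace Pool.Agent.Results.MP_838544_lc.MonotonePrograms

open Pool.Agent.V8H46.RP

theorem result :
    (∀ (S N L T D r : ℕ) (s t : Fin N) (p : ℕ → Op S (Fin L × Fin N × Fin N)) (out : Fin S),
      (Computes ℕ s t p T out ∨ Computes MinPlus s t p T out) →
      1 ≤ D → T ≤ 2 ^ D → 2 ^ r ≤ L → N ^ r ≤ 2 ^ D * (2 * D * S * L) ^ r) ∧
    (∀ (f : ℕ → ℕ) (c k : ℕ), c + 2 ≤ k → ∃ n₀ : ℕ, ∀ n ≥ n₀, ∀ S ≤ f k * n ^ c,
      ∀ T ≤ n ^ f k, ∀ (s t : Fin (n ^ k)) (p : ℕ → Op S (Fin n × Fin (n ^ k) × Fin (n ^ k)))
        (out : Fin S), ¬ (Computes ℕ s t p T out ∨ Computes MinPlus s t p T out)) :=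
  ⟨fun _ _ _ _ _ _ _ _ _ _ h hD hT hr => tradeoff_semi h hD hT hr, corollary⟩

end Pool.Agent.Results.MP_838544_lc.MonotonePrograms
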